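import Pool.Agent.Results.MP_4297ae_an.UnderCH
import Pool.Agent.Helper292.ForceCH

/-!
# It is consistent that `C(βℕ ∖ ℕ)` has the SHAI property

The continuum hypothesis can be forced, and it implies that `C(βℕ ∖ ℕ)` has the SHAI property.
The forcing language is the one of `Pool.Agent.Helper292.ForceCH`: a sentence is represented by the
set of the conditions which force it, with the usual clauses for the connectives.
-/

set_option autoImplicit false

open Set
open scoped Cardinal

namespace Pool.Agent.Results.MP_4297ae_an.ConsistentlyYes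

open Pool.Agent.R634.CH Pool.Agent.Results.MP_4297ae_an.UnderCH

universe v w

/-- (1) Some forcing notion forces, below every condition, that `ω₁` is preserved and that the
continuum hypothesis holds. (2) The continuum hypothesis implies that the Banach space
`C(βℕ ∖ ℕ)` of continuous real or complex functions on the Čech–Stone remainder of `ℕ` has the
SHAI property. -/
theorem result :
    (∃ (P : Type) (_ : Preorder P), Nonempty P ∧ ∀ p : P,
      p ∈ Pool.Agent.Helper292.ForceCH.OmegaOnePreserved P ∧
      p ∈ Pool.Agent.Helper292.ForceCH.CHHolds P) ∧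
    ((𝔠 : Cardinal.{0}) = Cardinal.aleph 1 → ∀ (𝕜 : Type w) [RCLike 𝕜],
      SHAI.{w, v} 𝕜 C(Rem, 𝕜)) := by
  refine ⟨?_, fun hCH 𝕜 _ => UnderCH.result hCH 𝕜⟩
  obtain ⟨P, i, h1, h2⟩ := Pool.Agent.Helper292.ForceCH.exists_forcing
  exact ⟨P, i, h1, fun p => ⟨(h2 p).1, (h2 p).2.2⟩⟩

end Pool.Agent.Results.MP_4297ae_an.ConsistentlyYes
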